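import Mathlib
import Pool.Agent.Helper11.Point
import Pool.Agent.Helper11.Ro.Types
import Pool.Agent.Helper10.DegenTypes

/-!
# Products of copies of given varieties, and multiples of classes: definitions
-/

universe u v w

namespace Pool.Agent.Helper11.Rn

open Pool.Agent.Helper10 SmProjVar Pool.Agent.Helper11.Obs Pool.Agent.Helper11.Ro

/-- `Y` is a product of (finitely many, possibly zero) copies of the `V c` and of the point. -/
inductive IsProductOf {k : Type u} [Field k] {P : ℕ} (V : Fin P → SmProjVar k) :
    SmProjVar k → Prop
  | point : IsProductOf V (pt k)
  | factor (c : Fin P) : IsProductOf V (V c)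
  | prod (X Y : SmProjVar k) : IsProductOf V X → IsProductOf V Y → IsProductOf V (X.prod Y)

section Linear

variable {K : Type v} [Field K] {F : Subfield K} {M : Type w} [AddCommGroup M] [Module K M]

/-- The elements of the `F`-subspace `A` of the `K`-vector space `M` which are linearly independent
over `F` are linearly independent over `K`. (This is no condition if `F = K`.) -/
def IsIndependent (A : Submodule F M) : Prop :=
  ∀ (m : ℕ) (z : Fin m → M), (∀ i, z i ∈ A) → LinearIndependent F z → LinearIndependent K z

/-- If a nonzero element `z` of the `F`-subspace `A` and its multiple `a • z`, where `a ∈ K` is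
algebraic over `F`, are both in `A`, then `a ∈ F`. (This is no condition if `F` is algebraically
closed in `K`.) -/
def HasRationalMultiples (A : Submodule F M) : Prop :=
  ∀ z ∈ A, z ≠ 0 → ∀ a : K, IsAlgebraic F a → a • z ∈ A → a ∈ F

end Linear

variable {k : Type u} [Field k] {K : Type v} [Field K]

/-- The class `S` of varieties contains all products of copies of the `V c` and of the point, and
for all `Y` in `S`, `H(Y)` is spanned by the images, under algebraic correspondences, of words in
the `E c`. (So `H(V c)` is spanned by the images of words. Conversely, if the `H(V c)` are, `S` can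
be the class of all products of copies of the `V c` and of the point, or the class of all `Y` such
that `H(Y)` is spanned by the images of words.) -/
structure IsBetween (W : CohomologyData.{u, v, w} k K) {P : ℕ} (V : Fin P → SmProjVar k)
    (E : Subspaces W V) (S : SmProjVar k → Prop) : Prop where
  products : ∀ Y, IsProductOf V Y → S Y
  spanned : ∀ Y, S Y → IsSpanned W V E Y

/-- For all `Y`, the `F`-subspace `A Y` of `H(Y)` consists of `F`-linear combinations of classes of
algebraic cycles and contains those which are numerically trivial. -/
structure ContainsNumTrivial (W : CohomologyData.{u, v, w} k K) (F : Subfield K)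
    (A : ∀ Y : SmProjVar k, Submodule F (W.H Y)) : Prop where
  le : ∀ Y, A Y ≤ cycleSpan W F Y
  mem : ∀ Y, ∀ z ∈ cycleSpan W F Y, IsNumTrivial W Y z → z ∈ A Y

/-- The cycles on the variety `Y` degenerate, with respect to some Weil cohomology theory over some
field, with coefficients in `K`, to varieties which satisfy the standard conjecture D. -/
def Degenerates [CharZero K] (W : CohomologyData.{u, v, w} k K) (Y : SmProjVar k) : Prop :=
  ∃ (k' : Type u) (_ : Field k') (W' : WeilCohomology.{u, v, w} k' K),
    DegeneratesToStandardD W W'.toCohomologyData Y

end Pool.Agent.Helper11.Rn
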