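import Mathlib
import Pool.Agent.Helper11.Ro.TFAE
import Pool.Agent.Helper11.Rn.Slots
import Pool.Agent.Helper11.Rn.Types
import Pool.Agent.Helper22.IndepInt

/-!
# The standard conjecture D and multiples of numerically trivial classes on products
-/

universe u v w t

open CategoryTheory TensorProduct Finset

namespace Pool.Agent.Helper11.Rn

open Pool.Agent.Helper10 hiding IsAlgAut parityPart
open SmProjVar SPre Pool.Agent.Helper11.Iso
open Pool.Agent.Helper11.Obs
open Pool.Agent.Helper11.Ro hiding exists_slots HasRationalMultiples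
open Pool.Agent.Helper11.In Pool.Agent.Helper22.IndepInt

variable {k : Type u} [Field k] {K : Type v} [Field K] [CharZero K]
  (W : WeilCohomology.{u, v, w} k K) {F : Subfield K}
  {P : ℕ} {V : Fin P → SmProjVar k} {E : Subspaces W.toCohomologyData V}

/-! ### products -/

omit [CharZero K] in
lemma isProductOf_power_pt (n : ℕ) : IsProductOf V (power (pt k) n) := by
  induction n with
  | zero => exact IsProductOf.point
  | succ n ih => exact IsProductOf.prod _ _ ih IsProductOf.point

lemma isProductOf_prodVar {A : SmProjVar k} (hA : IsProductOf V A) {b : ℕ}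
    (U : Fin b → SmProjVar k) (hU : ∀ i, IsProductOf V (U i)) : IsProductOf V (prodVar A U) := by
  induction b with
  | zero => exact hA
  | succ b ih => exact IsProductOf.prod _ _ (ih (fun i => U i.castSucc) fun i => hU _) (hU _)

lemma IsProductOf.isSpanned (hE : ∀ c, IsPieceOver W.toCohomologyData F (V c) (E c))
    (hs : ∀ c, IsSpanned W.toCohomologyData V E (V c)) {Y : SmProjVar k} (hY : IsProductOf V Y) :
    IsSpanned W.toCohomologyData V E Y := by
  induction hY with
  | point => exact isSpanned_pt W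
  | factor c => exact hs c
  | prod X Y _ _ hX hY => exact isSpanned_prod W (fun c => (hE c).isPiece) hX hY

/-- independent vectors do not have irrational multiples -/
lemma hasRationalMultiples_of_isIndependent {M : Type w} [AddCommGroup M] [Module K M]
    {A : Submodule F M} (h : IsIndependent A) : HasRationalMultiples A := by
  intro z hz hz0 a _ ha
  by_contra haF
  have h1 : LinearIndependent F ![z, a • z] := by
    rw [LinearIndependent.pair_iff]
    intro s t hst
    have h2 : ((s : K) + (t : K) * a) • z = 0 := by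
      rw [add_smul, mul_smul]
      exact hst
    have h3 : (s : K) + (t : K) * a = 0 := by
      rcases smul_eq_zero.mp h2 with h3 | h3
      · exact h3
      · exact absurd h3 hz0
    have ht : t = 0 := by
      by_contra ht
      have ht' : (t : K) ≠ 0 := fun h4 => ht (Subtype.ext h4)
      apply haF
      have h4 : a = -(s : K) * (t : K)⁻¹ := by
        field_simp
        linear_combination h3
      rw [h4]
      exact F.mul_mem (F.neg_mem s.2) (F.inv_mem t.2)
    subst ht
    refine ⟨?_, rfl⟩
    have h4 : (s : K) = 0 := by simpa using h3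
    exact Subtype.ext h4
  have h2 := h 2 ![z, a • z] (by
    intro i
    fin_cases i
    · exact hz
    · exact ha) h1
  rw [LinearIndependent.pair_iff] at h2
  have h3 := (h2 a (-1) (by rw [neg_one_smul, add_neg_cancel])).2
  exact one_ne_zero (neg_eq_zero.mp h3)

/-- **The eigenvalues of correspondences on the flags.** If no nonzero numerically trivial class with
coefficients in `F` on a product has a multiple by a scalar outside `F` with coefficients in `F`,
the eigenvalues of the correspondences with coefficients in `F` on flags with numerically trivial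
determinant are roots of polynomials over `F`. -/
theorem hasEigenvaluesOver_of_flags
    (hE : ∀ c, IsPieceOver W.toCohomologyData F (V c) (E c))
    (hI : ∀ Y, IsProductOf V Y → ∀ z ∈ nt W F Y, z ≠ 0 → ∀ a : K, IsAlgebraic F a →
      a • z ∈ nt W F Y → a ∈ F)
    {G : ∀ c : Fin P, ℕ → Submodule K (W.H (V c))}
    (hG : AreRelatedFlags.{u, v, w, t} W.toCohomologyData (pt k) V E G)
    (hdet : HasNumTrivialDeterminantOver W.toCohomologyData (pt k) E G F) {c₀ : Fin P}
    {u : W.H (V c₀) → W.H (V c₀)} (hu : IsMapOver W.toCohomologyData F (V c₀) u)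
    (huE : ∀ y ∈ E c₀, u y ∈ E c₀) : HasEigenvaluesOver F u (G c₀ 0) := by
  classical
  obtain ⟨N, m, b, l, r, f, e, z, x, hm, hN, hf, hz, hzF, hv⟩ := hdet
  have hE' : ∀ c, IsPiece W.toCohomologyData (V c) (E c) := fun c => (hE c).isPiece
  choose π hπ hπE hπp using fun c => (hE c).exists_proj
  obtain ⟨ul, hul⟩ := IsMapOver.exists_linear W hu
  have hfG : ∀ y s, f y s ∈ G y.1 y.2 := fun y s => by
    rw [← (hf y).2]
    exact Submodule.subset_span ⟨s, rfl⟩
  have hfE : ∀ y s, f y s ∈ E y.1 := fun y s => hG.le y.1 y.2 (hfG y s)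
  have hρ : ∀ (i : Fin N) (s : Fin (r (c₀, i))), ∃ ρ : Fin (r (c₀, i)) → K,
      u (f (c₀, i) s) = ∑ s', ρ s' • f (c₀, i) s' := by
    intro i s
    have h1 := hG.correspondences c₀ c₀ u (IsMapOver.isAlgebraicMap W hu) huE i _ (hfG (c₀, i) s)
    rw [← (hf (c₀, i)).2] at h1
    obtain ⟨ρ, hρ⟩ := (Submodule.mem_span_range_iff_exists_fun K).mp h1
    exact ⟨ρ, hρ.symm⟩
  choose ρ hρ using hρ
  have hu' : u = ul := funext fun y => (hul y).symm
  rw [hu']
  refine hasEigenvaluesOver_of_det F hm (hG.antitone c₀) (hN c₀) (fun i => hf (c₀, i)) ul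
    (fun i => Matrix.of fun s' s => ρ i s s') (fun i s => by
      rw [hul, hρ]
      rfl) fun a ha => ?_
  -- the dual families
  choose g hgE hg using fun y => Dt.exists_dual_family W (hE' y.1) (hf y).1 (hfE y)
  have hg1 : ∏ y : Fin m × Fin P × Fin N, Matrix.det (Matrix.of fun s t =>
      W.pairing (V y.2.1) (g y.2 s) (f y.2 t)) = 1 := by
    refine prod_eq_one fun y _ => ?_
    have h4 : (Matrix.of fun s t => W.pairing (V y.2.1) (g y.2 s) (f y.2 t)) = 1 := by
      ext s t
      rw [Matrix.of_apply, hg, Matrix.one_apply]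
    rw [h4, Matrix.det_one]
  -- the operators on the factors
  obtain ⟨w, hw, hwE, hwdet⟩ := exists_slot_map W (hπ c₀) (hπE c₀) (hπp c₀) hu ha
  obtain ⟨wc, hwc⟩ : ∃ wc : ∀ c, W.H (V c) → W.H (V c), wc = Function.update π c₀ w := ⟨_, rfl⟩
  have hwcM : ∀ c, IsMapOver W.toCohomologyData F (V c) (wc c) := by
    intro c
    rw [hwc]
    by_cases hc : c = c₀
    · subst hc
      rw [Function.update_self]
      exact hw
    · rw [Function.update_of_ne hc]
      exact hπ c
  have hwcE : ∀ c y, wc c y ∈ E c := by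
    intro c
    rw [hwc]
    by_cases hc : c = c₀
    · subst hc
      rw [Function.update_self]
      exact hwE
    · rw [Function.update_of_ne hc]
      exact hπE c
  have hznt : z ∈ nt W F _ := ⟨hzF, hz⟩
  obtain ⟨z₁, hz₁, hz₁v⟩ := Rn.exists_slots W (A := power (pt k) l)
    (V := fun q => V (e.symm q).1.2.1) (w := fun q => wc _) (fun q => hwcM _) hznt
  obtain ⟨z₀, hz₀, hz₀v⟩ := Rn.exists_slots W (A := power (pt k) l)
    (V := fun q => V (e.symm q).1.2.1) (w := fun q => π _) (fun q => hπ _) hznt
  have hx0 : x ≠ 0 := by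
    rintro rfl
    have h1 := hv (fun q => g q.1.2 q.2) fun q => hgE _ _
    rw [hg1] at h1
    have h2 : extProd W.toCohomologyData (0 : W.H (power (pt k) l))
        (fun q => g (e.symm q).1.2 (e.symm q).2) = 0 := by
      have h3 := extProd_smul W (0 : K) (0 : W.H (power (pt k) l))
        (fun q => g (e.symm q).1.2 (e.symm q).2)
      rwa [zero_smul, zero_smul] at h3
    rw [h2] at h1
    have h3 : W.trL _ (z * 0) = 1 := h1
    rw [mul_zero, map_zero] at h3
    exact zero_ne_one h3
  have hz₀0 : z₀ ≠ 0 := by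
    rintro rfl
    have h1 := hz₀v x fun q => g (e.symm q).1.2 (e.symm q).2
    have h2 := hv (fun q => π _ (g q.1.2 q.2)) fun q => hπE _ _
    have h3 : ∏ y : Fin m × Fin P × Fin N, Matrix.det (Matrix.of fun s t =>
        W.pairing (V y.2.1) (π _ (g y.2 s)) (f y.2 t)) = 1 := by
      rw [← hg1]
      refine prod_congr rfl fun y _ => ?_
      congr 1
      ext s t
      rw [Matrix.of_apply, Matrix.of_apply, hπp _ _ _ (hfE _ _)]
    have h4 : W.trL _ ((0 : W.H (wordVar (pt k) V l fun q => (e.symm q).1.2.1)) *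
        extProd W.toCohomologyData x fun q => g (e.symm q).1.2 (e.symm q).2) = 1 :=
      h1.trans (h2.trans h3)
    rw [zero_mul, map_zero] at h4
    exact zero_ne_one h4
  obtain ⟨D, hD⟩ : ∃ D : K, D = (∏ i : Fin N, (Matrix.scalar (Fin (r (c₀, i))) a -
    Matrix.of fun s' s => ρ i s s').det) ^ m := ⟨_, rfl⟩
  have key : z₁ = D • z₀ := by
    refine eq_of_pairing_extProd W fun y v => ?_
    obtain ⟨v, rfl⟩ : ∃ v' : (∀ q : (Σ y : Fin m × Fin P × Fin N, Fin (r y.2)),
        W.H (V q.1.2.1)), (fun i => v' (e.symm i)) = v :=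
      ⟨(Equiv.piCongrLeft' (fun q => W.H (V q.1.2.1)) e).symm v,
        (Equiv.piCongrLeft' (fun q => W.H (V q.1.2.1)) e).apply_symm_apply v⟩
    obtain ⟨c, rfl⟩ := exists_smul_of_dim_zero W (power_pt_dim l) hx0 y
    rw [hz₁v, pairing_smul_left, hz₀v, extProd_smul, extProd_smul]
    have h1 := hv (fun q => wc _ (v q)) fun q => hwcE _ _
    have h2 := hv (fun q => π _ (v q)) fun q => hπE _ _
    have h3 : ∀ y', W.pairing (wordVar (pt k) V l fun q => (e.symm q).1.2.1) z (c • y') =
        c * W.pairing _ z y' := fun y' => Can.pairing_smul W z c y'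
    refine (h3 _).trans (((congrArg (c * ·) h1).trans ?_).trans
      (congrArg (D * ·) ((h3 _).trans (congrArg (c * ·) h2))).symm)
    rw [← mul_assoc, mul_comm D c, mul_assoc]
    congr 1
    rw [hD, ← prod_blocks (K := K) (m := m) c₀, ← prod_mul_distrib]
    refine prod_congr rfl fun y _ => ?_
    obtain ⟨j, c', i⟩ := y
    by_cases hc : c' = c₀
    · subst hc
      rw [if_pos rfl, mul_comm]
      have h4 := hwdet _ (f (c', i)) (Matrix.of fun s' s => ρ i s s') (fun s => hfE (c', i) s)
        (fun s => hρ i s) fun s => v ⟨(j, c', i), s⟩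
      rw [← h4, hwc]
      simp only [Function.update_self]
    · rw [if_neg hc, _root_.one_mul, hwc]
      simp only [Function.update_of_ne hc]
  rw [← hD]
  refine hI _ ?_ z₀ hz₀ hz₀0 D ?_ (by rw [← key]; exact hz₁)
  · exact isProductOf_prodVar (isProductOf_power_pt l) _ fun i => IsProductOf.factor _
  -- the determinants are algebraic over `F`
  have hfin : Module.Finite K (W.H (V c₀)) := (W.graded (V c₀)).finite
  let A : Module.End K (E c₀) := ul.restrict fun y hy => by rw [hul]; exact huE y hy
  have hA : ∀ y : E c₀, ((A y : E c₀) : W.H (V c₀)) = u y := fun y => hul y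
  obtain ⟨p, hp, hpA⟩ := exists_isNilpotent W (hE c₀) hu A hA
  have h1 : ∀ i : Fin N, IsAlgebraic F (Matrix.scalar (Fin (r (c₀, i))) a -
      Matrix.of fun s' s => ρ i s s').det := by
    intro i
    refine isAlgebraic_det F A hp hpA (f := fun s => (⟨f (c₀, i) s, hfE (c₀, i) s⟩ : E c₀))
      ?_ _ (fun s => ?_) ha
    · exact LinearIndependent.of_comp (E c₀).subtype (hf (c₀, i)).1
    · apply Subtype.ext
      rw [hA]
      change u (f (c₀, i) s) = _
      rw [hρ, Submodule.coe_sum]
      rfl
  rw [hD, isAlgebraic_iff_isIntegral]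
  refine IsIntegral.pow (IsIntegral.prod _ fun i _ => ?_) m
  exact isAlgebraic_iff_isIntegral.mp (h1 i)

/-- **The standard conjecture D and multiples of cycle classes.** -/
theorem standardD_of_multiples
    (hE : ∀ c, IsPieceOver W.toCohomologyData F (V c) (E c))
    (ha : AreAnisotropicOver.{u, v, w, t} W.toCohomologyData V E F)
    (hI : ∀ Y, IsProductOf V Y → ∀ z ∈ nt W F Y, z ≠ 0 → ∀ a : K, IsAlgebraic F a →
      a • z ∈ nt W F Y → a ∈ F)
    (Y : SmProjVar k) (hY : IsSpanned W.toCohomologyData V E Y) : W.StandardD Y := by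
  have hE' : ∀ c, IsPiece W.toCohomologyData (V c) (E c) := fun c => (hE c).isPiece
  obtain ⟨n, hn⟩ := exists_spannedBy W hY
  refine Can.standardD_of_numTrivialOrthogonal W (X := pt k) (E := E) ?_ hn
  obtain ⟨G, hF, -, D, hD, hdet⟩ := exists_related_det.{u, v, w, t} W (X := pt k)
    (standardD_power_pt W) V E hE (n := n + 2) (by omega)
  have h1 : IsTrivial W.toCohomologyData G := by
    by_contra hne
    have h0 : ∀ c, G c (((0 + 1 : ℕ) : ℝ) / D) = ⊥ := by
      intro c
      refine ha c _ (hD.related.le c 0) ⟨fun u hu huE => ?_, ?_⟩ (hD.related.isotropic c 0)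
        fun u hu huE => ?_
      · exact hD.related.correspondences c c u hu huE 0
      · intro Ω _ _ g χ hg hgE
        exact hD.related.symmetries Ω g χ hg hgE c 0
      · exact hasEigenvaluesOver_of_flags W hE hI hD.related (hdet hne) hu huE
    refine hne fun c a hpos => ?_
    have hD' : (0 : ℝ) < D := by exact_mod_cast hD.pos
    obtain ⟨i, hi⟩ : ∃ i : ℕ, ⌈(D : ℝ) * a⌉ = ((i + 1 : ℕ) : ℤ) := by
      have h2 : 0 < ⌈(D : ℝ) * a⌉ := Int.ceil_pos.mpr (mul_pos hD' hpos)
      refine ⟨(⌈(D : ℝ) * a⌉ - 1).toNat, ?_⟩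
      push_cast
      rw [Int.toNat_of_nonneg (by omega)]
      ring
    rw [hD.jumps c a, hi, eq_bot_iff, ← h0 c]
    exact hD.related.antitone c (Nat.zero_le i)
  have h2 := Can.numTrivialOrthogonal_of_trivial W hF.admissible h1
  rintro T z y hz ⟨m, b, p, x, c, f, a, v, hb, hv, ha, rfl⟩
  exact h2 T z _ hz ⟨m, b, p, x, c, f, a, v, hb.trans (by omega), hv, ha, rfl⟩

/-- if the `H(V c)` are spanned by images of words, so are those of products -/
lemma isBetween_products (hE : ∀ c, IsPieceOver W.toCohomologyData F (V c) (E c))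
    (hs : ∀ c, IsSpanned W.toCohomologyData V E (V c)) :
    IsBetween W.toCohomologyData V E (IsProductOf V) :=
  ⟨fun _ h => h, fun _ h => h.isSpanned W hE hs⟩

lemma isBetween_spanned (hE : ∀ c, IsPieceOver W.toCohomologyData F (V c) (E c))
    (hs : ∀ c, IsSpanned W.toCohomologyData V E (V c)) :
    IsBetween W.toCohomologyData V E (IsSpanned W.toCohomologyData V E) :=
  ⟨fun _ h => h.isSpanned W hE hs, fun _ h => h⟩

lemma containsNumTrivial_cycleSpan :
    ContainsNumTrivial W.toCohomologyData F (cycleSpan W.toCohomologyData F) :=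
  ⟨fun _ => le_rfl, fun _ _ h _ => h⟩

/-- the numerically trivial classes with coefficients in `F` -/
def ntSpan (F : Subfield K) (X : SmProjVar k) : Submodule F (W.H X) where
  carrier := nt W F X
  add_mem' := by
    intro x y hx hy
    rw [nt_iff] at hx hy ⊢
    exact ⟨Submodule.add_mem _ hx.1 hy.1, fun a ha => by
      rw [add_mul, map_add, hx.2 a ha, hy.2 a ha, add_zero]⟩
  zero_mem' := (nt_iff W).mpr ⟨Submodule.zero_mem _, fun a _ => by rw [zero_mul, map_zero]⟩
  smul_mem' := by
    intro c x hx
    rw [nt_iff] at hx ⊢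
    refine ⟨Submodule.smul_mem _ c hx.1, fun a ha => ?_⟩
    change W.trL X (((c : K) • x) * a) = 0
    rw [smul_mul_assoc, map_smul, hx.2 a ha, smul_zero]

lemma containsNumTrivial_ntSpan :
    ContainsNumTrivial W.toCohomologyData F (ntSpan W F) :=
  ⟨fun _ _ h => h.1, fun _ _ h h' => ⟨h, h'⟩⟩

/-- **The standard conjecture D, independence, rational multiples and degenerations.** -/
theorem criterion (hE : ∀ c, IsPieceOver W.toCohomologyData F (V c) (E c))
    (ha : AreAnisotropicOver.{u, v, w, t} W.toCohomologyData V E F)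
    {S : SmProjVar k → Prop} (hS : IsBetween W.toCohomologyData V E S)
    {A : ∀ Y : SmProjVar k, Submodule F (W.H Y)}
    (hA : ContainsNumTrivial W.toCohomologyData F A) :
    [∀ Y, IsSpanned W.toCohomologyData V E Y → W.StandardD Y, ∀ Y, S Y → W.StandardD Y,
      ∀ Y, S Y → IsIndependent (A Y), ∀ Y, S Y → HasRationalMultiples (A Y),
      ∀ Y, S Y → Degenerates W.toCohomologyData Y].TFAE := by
  tfae_have 1 → 2 := fun h Y hY => h Y (hS.spanned Y hY)
  tfae_have 2 → 5 := fun h Y hY => ⟨k, inferInstance, W, degenerates_self W (h Y hY)⟩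
  tfae_have 5 → 3 := by
    intro h Y hY
    obtain ⟨k', hk', W', h'⟩ := h Y hY
    intro m z hz hi
    exact Degen.independentOver_of_degeneration h' F m z (fun i => hA.le Y (hz i)) hi
  tfae_have 3 → 4 := fun h Y hY => hasRationalMultiples_of_isIndependent (h Y hY)
  tfae_have 4 → 1 := by
    intro h Y hY
    refine standardD_of_multiples W hE ha (fun Y' hY' z hz hz0 a haF haz => ?_) Y hY
    exact h Y' (hS.products Y' hY') z (hA.mem Y' z hz.1 hz.2) hz0 a haF
      (hA.mem Y' _ haz.1 haz.2)
  tfae_finish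

/-- **The standard conjecture D and finite generation.** -/
theorem integral_criterion (hE : ∀ c, IsPieceOver W.toCohomologyData F (V c) (E c))
    (ha : AreAnisotropicOver.{u, v, w, t} W.toCohomologyData V E F)
    {S : SmProjVar k → Prop} (hS : IsBetween W.toCohomologyData V E S)
    {A : ∀ Y : SmProjVar k, Submodule F (W.H Y)}
    (hA : ContainsNumTrivial W.toCohomologyData F A)
    {O : ValuationSubring K} (hO : IsDenseSubfield F O) :
    [∀ Y, IsSpanned W.toCohomologyData V E Y → W.StandardD Y,
      ∀ Y, S Y → ∀ (m : ℕ) (b : Module.Basis (Fin m) K (W.H Y)), HasFGIntegralVectors O (A Y) b,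
      ∀ Y, S Y → ∃ (m : ℕ) (b : Module.Basis (Fin m) K (W.H Y)),
        HasFGIntegralVectors O (A Y) b].TFAE := by
  have h0 := (criterion.{u, v, w, t} W hE ha hS hA).out 0 2
  tfae_have 1 → 2 := fun h Y hY m b => fg_of_independent hO b ((h0.1 h) Y hY)
  tfae_have 2 → 3 := by
    intro h Y hY
    have := (W.graded Y).finite
    exact ⟨_, Module.finBasis K (W.H Y), h Y hY _ _⟩
  tfae_have 3 → 1 := by
    intro h
    refine h0.2 fun Y hY => ?_
    obtain ⟨m, b, hb⟩ := h Y hY
    exact independent_of_fg hO b hb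
  tfae_finish

theorem integral_criterion' (hE : ∀ c, IsPieceOver W.toCohomologyData F (V c) (E c))
    (ha : AreAnisotropicOver.{u, v, w, t} W.toCohomologyData V E F)
    {S : SmProjVar k → Prop} (hS : IsBetween W.toCohomologyData V E S)
    {A : ∀ Y : SmProjVar k, Submodule F (W.H Y)}
    (hA : ContainsNumTrivial W.toCohomologyData F A)
    {O : ValuationSubring K} (hO : IsDenseSubfield F O) :
    [∀ Y, S Y → W.StandardD Y,
      ∀ Y, S Y → ∀ (m : ℕ) (b : Module.Basis (Fin m) K (W.H Y)), HasFGIntegralVectors O (A Y) b,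
      ∀ Y, S Y → ∃ (m : ℕ) (b : Module.Basis (Fin m) K (W.H Y)),
        HasFGIntegralVectors O (A Y) b].TFAE := by
  have h0 := integral_criterion.{u, v, w, t} W hE ha hS hA hO
  have h1 := (criterion.{u, v, w, t} W hE ha hS hA).out 0 1
  tfae_have 1 → 2 := fun h => (h0.out 0 1).1 (h1.2 h)
  tfae_have 2 → 3 := (h0.out 1 2).1
  tfae_have 3 → 1 := fun h => h1.1 ((h0.out 0 2).2 h)
  tfae_finish

end Pool.Agent.Helper11.Rn
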